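import Pool.Agent.H516R2.EQP5.All

/-!
# `EQP` is outside the polynomial hierarchy relative to many oracles

If `2 ^ ((log log N) ^ (1 + ε)) ≤ f N` for all large `N`, where `ε > 0`, then the oracles `A` such
that some language decided without error by polynomial-time uniform quantum circuits with at most
six questions to `A` is not in the polynomial hierarchy relative to `A` are not a null set for the
gauge `f`. Moreover every oracle can be changed into such an oracle by changing it only in one fixed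
very sparse set.
-/

set_option autoImplicit false

namespace Pool.Agent.Results.MP_2eaaa0_lc.ManyOraclesOutsidePH

open Pool.Agent.NPC Pool.Agent.H620R2.Gauge Pool.Agent.H516R2.EQP Pool.Agent.H516R2.EQP5

open Classical in
theorem result (ε : ℝ) (hε : 0 < ε) :
    (∀ f : ℕ → ℝ,
      (∀ᶠ N : ℕ in Filter.atTop, 2 ^ (Real.logb 2 (Real.logb 2 N)) ^ (1 + ε) ≤ f N) →
      ¬ Null f {A : Oracle | ∃ L, IsEQP 6 A L ∧ ¬ IsPH A L}) ∧
    ∃ T : Set (List Bool),
      (∀ᶠ N : ℕ in Filter.atTop,
        (((Finset.range N).filter (fun i => str i ∈ T)).card : ℝ) ≤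
          2 ^ (Real.logb 2 (Real.logb 2 N)) ^ (1 + ε)) ∧
      ∀ R : Oracle, ∃ A : Oracle, (∀ y, y ∉ T → A y = R y) ∧ ∃ L, IsEQP 6 A L ∧ ¬ IsPH A L := by
  refine ⟨fun f hf => all_IH f ε hε hf, ?_⟩
  obtain ⟨a, b, hb, hab, hT⟩ := SI ε hε
  exact ⟨TI a b, hT, all_IG a b hb hab⟩

end Pool.Agent.Results.MP_2eaaa0_lc.ManyOraclesOutsidePH
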