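import Pool.Agent.H529R2.PT.P6

/-!
# Almost every promise admits only polynomial quantum speed-ups, for all functions on it

For all but at most a fraction `2 ^ (-n)` of the sets `P` of inputs (the promises) the following
holds for EVERY Boolean function `f` which is defined (at least) on `P`, and every number `T`: if
there are two quantum verifiers with `T` queries, one (`b = true`) which verifies that
`f x = 1`, and one (`b = false`) which verifies that `f x = 0`, each with the help of a quantum
proof of arbitrary length, with error `1/3` (in particular: if there is a quantum algorithm with `T`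
queries which computes `f` with error `1/3`), then a deterministic decision tree of depth
`(12 T ^ 2 + 1) ^ 4 (⌈log_2 (3 n)⌉ + 1) ^ 2` computes `f`.

The verifier `b` starts with a unit vector of the set `start b` (for instance: all vectors
`ψ ⊗ |0⟩`, or a single vector).  In the `t`-th step it makes a phase query (the basis state `c` is
multiplied by `(-1)^{x_i}` if `pos b c = some i`, and by `1` if `pos b c = none`) and then applies the
unitary matrix `U b t`.  The state after `t` steps on the input `x`, with the start vector `v`,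
is `A b v t x`, and the verifier accepts if the measurement after `T` steps gives a basis state of
`acc b`.
-/

set_option autoImplicit false

namespace Pool.Agent.Results.MP_2eaaa0_lc.RandomPromises

open Finset Pool.Agent.H529R2.PT

theorem result (n : ℕ) :
    -- the exceptional promises
    ∃ E : Finset (Finset (Fin n → Bool)), E.card * 2 ^ n ≤ 2 ^ (2 ^ n) ∧
    ∀ P : Finset (Fin n → Bool), P ∉ E →
    -- every function which is defined on `P`
    ∀ f : (Fin n → Bool) → Option Bool, (∀ x ∈ P, f x ≠ none) →
    -- two verifiers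
    ∀ (B : Type) [Fintype B] [DecidableEq B] (T : ℕ) (pos : Bool → B → Option (Fin n))
      (U : Bool → ℕ → Matrix B B ℂ), (∀ b t, U b t ∈ Matrix.unitaryGroup B ℂ) →
    ∀ start : Bool → Set (B → ℂ), (∀ b, ∀ v ∈ start b, ∑ c, ‖v c‖ ^ 2 = 1) →
    ∀ A : Bool → (B → ℂ) → ℕ → (Fin n → Bool) → B → ℂ, (∀ b v x, A b v 0 x = v) →
      (∀ b v t x, A b v (t + 1) x = (U b t).mulVec (fun c =>
        (Option.elim (pos b c) 1 (fun i => if x i = true then -1 else 1)) * A b v t x c)) →
    ∀ acc : Bool → Finset B,
    -- completeness
      (∀ x b, f x = some b → ∃ v ∈ start b, 2 / 3 ≤ ∑ c ∈ acc b, ‖A b v T x c‖ ^ 2) →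
    -- soundness
      (∀ x b, f x = some (!b) → ∀ v ∈ start b, ∑ c ∈ acc b, ‖A b v T x c‖ ^ 2 ≤ 1 / 3) →
    ∃ t : DTree (Fin n), t.depth ≤ (12 * T ^ 2 + 1) ^ 4 * (Nat.clog 2 (3 * n) + 1) ^ 2 ∧
      ∀ x b, f x = some b → t.eval x = b := by
  rcases Nat.eq_zero_or_pos n with hn0 | hn0
  · subst hn0
    refine ⟨∅, by simp, ?_⟩
    intro P _ f _ B _ _ T pos U _ start _ A _ _ acc _ _
    obtain ⟨t, ht1, ht2⟩ := tree_full f
    refine ⟨t, ?_, ht2⟩
    rw [Fintype.card_fin] at ht1
    omega
  · have hlog : 1 ≤ Nat.clog 2 (3 * n) := Nat.clog_pos (by norm_num) (by omega)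
    obtain ⟨k, hk⟩ : ∃ k, Nat.clog 2 (3 * n) = k + 1 := ⟨Nat.clog 2 (3 * n) - 1, by omega⟩
    rw [hk]
    have hpow : 3 * n ≤ 2 ^ (k + 1) := by
      rw [← hk]
      exact Nat.le_pow_clog (by norm_num) _
    refine ⟨bad n (k + 1), card_bad n (k + 1) hpow, ?_⟩
    intro P hP f hf B _ _ T pos U hU start hstart A hA0 hA acc h1 h0
    have hmeets := meets_of_not_bad hP f hf
    have hA' : ∀ b v t x, A b v (t + 1) x =
        (U b t).mulVec (fun c => ((phase (pos b c) x : ℝ) : ℂ) * A b v t x c) := by
      intro b v t x
      rw [hA]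
      congr 1
      funext c
      congr 1
      unfold phase
      cases pos b c with
      | none => simp
      | some i =>
        simp only [Option.elim_some]
        split_ifs <;> simp
    have hBS := BS_of_polys f (2 * T) (by
      intro x b hx
      obtain ⟨v, hv, hacc⟩ := h1 x b hx
      have hn := norm_amp (pos b) (U b) (hU b) v (hstart b v hv) (A b v) (hA0 b v) (hA' b v)
      refine ⟨fun y => ∑ c ∈ acc b, ‖A b v T y c‖ ^ 2,
        prob_mem (pos b) (U b) v (A b v) (hA0 b v) (hA' b v) T (acc b),
        fun y => ⟨Finset.sum_nonneg fun c _ => by positivity, by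
          rw [← hn T y]
          exact Finset.sum_le_sum_of_subset_of_nonneg (Finset.subset_univ _)
            (fun c _ _ => by positivity)⟩, hacc, fun y hy => h0 y b hy v hv⟩)
    have e : 3 * (2 * T) ^ 2 = 12 * T ^ 2 := by ring
    rw [e] at hBS
    exact tree_of_BS f k (12 * T ^ 2) hmeets hBS

end Pool.Agent.Results.MP_2eaaa0_lc.RandomPromises
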