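import Pool.Agent.H554R2.RK.Main

/-!
# Exact quantum programs against Boolean combinations of nondeterministic read-k programs

For all `k` and `s` there is a promise problem on `n` Boolean variables which is decided without
error by quantum branching programs with `O(n)` basis states (`log n + O(1)` qubits) and `2 n + 2`
queries, and which is not decided by any Boolean combination of `s` nondeterministic
read-`k`-times branching programs with fewer than `2 ^ (n / D)` nodes.

The lemmas were proved together with helper18, helper55, helper92, helper143, helper171, helper213,
helper218, helper234, helper259, helper409, helper431, helper556, helper724, helper737, helper819,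
helper873 (this part and the quantum program), helper19, helper77, helper79, helper227, helper237,
helper406, helper642 (random partitions, coefficients, discrepancy).
-/

set_option autoImplicit false

namespace Pool.Agent.Results.MP_2eaaa0_lc.ReadKTimesPrograms

open Pool.Agent.H554R2.Sem Pool.Agent.H554R2.Qua Pool.Agent.H554R2.RK

/-- For all `k` and `s` there is a constant `D` such that for all `n ≥ D` there are a set `X true`
and a set `X false` of inputs of length `n` with the following properties.

* There is a quantum branching program with at most `D n` basis states and at most `2 n + 2` steps
  (queries) which accepts the elements of `X true` with probability `1` and the elements of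
  `X false` with probability `0`.
* For all nondeterministic branching programs `P 1, ..., P s` with fewer than `2 ^ (n / D)` nodes
  in which every path from the start node queries every variable at most `k` times, and for every
  Boolean combination `g` of the truth values of `P i` accepts `x`, there are a bit `b` and an
  input `x` in `X b` for which the value of `g` is not `b`. -/
theorem result (k s : ℕ) : ∃ D : ℕ, 0 < D ∧ ∀ n ≥ D, ∃ X : Bool → Finset (Pt n),
    (∃ Q : QBP n, Fintype.card Q.State ≤ D * n ∧ Q.len ≤ 2 * n + 2 ∧
      (∀ x ∈ X true, Q.prob x = 1) ∧ ∀ x ∈ X false, Q.prob x = 0) ∧
    ∀ P : Fin s → NBP (Fin n), (∀ i, ReadK (P i) k) →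
      (∀ i, Fintype.card (P i).State < 2 ^ (n / D)) → ∀ g : (Fin s → Prop) → Prop,
        ∃ b, ∃ x ∈ X b, ¬ (g (fun i => Acc (P i) x) ↔ b = true) :=
  Pool.Agent.H554R2.RK.bqp_final k s

end Pool.Agent.Results.MP_2eaaa0_lc.ReadKTimesPrograms
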