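import Pool.Agent.H529R2.PT.P4

/-!
# Quantum query speed-ups need promises which avoid large subcubes

`f` is a Boolean function on `{0,1}^n` which is defined only on a part of the inputs
(`f x = none` means that `f` is not defined on `x`).  Suppose that every subcube of dimension
`k + 1` contains an input on which `f` is defined.  If a quantum algorithm with `T` queries
computes `f` with error `1/3` (on the inputs on which `f` is defined), then a deterministic decision
tree of depth `(12 T ^ 2 + 1) ^ 4 (k + 2) ^ 2` computes `f`.

The algorithm starts with the unit vector `v` in the space with basis `B`.  In the `t`-th step it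
makes a phase query (the basis state `b` is multiplied by `(-1)^{x_i}` if `pos b = some i`, and by `1`
if `pos b = none`) and then applies the unitary matrix `U t`.  The state after `t` steps on the input
`x` is `A t x`, and the algorithm accepts if the measurement after `T` steps gives a basis state
of `acc`.
-/

set_option autoImplicit false

namespace Pool.Agent.Results.MP_2eaaa0_lc.StructuredPromises

open Finset Pool.Agent.H529R2.PT

theorem result {n : ℕ} (k : ℕ)
    -- the function, defined on part of the cube
    (f : (Fin n → Bool) → Option Bool)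
    -- it is defined somewhere on every subcube of dimension `k + 1`
    (hf : ∀ (W : Finset (Fin n)) (y : Fin n → Bool), W.card = k + 1 →
      ∃ x : Fin n → Bool, (∀ i, i ∉ W → x i = y i) ∧ f x ≠ none)
    -- the quantum algorithm
    {B : Type} [Fintype B] [DecidableEq B] (T : ℕ) (pos : B → Option (Fin n))
    (U : ℕ → Matrix B B ℂ) (hU : ∀ t, U t ∈ Matrix.unitaryGroup B ℂ)
    (v : B → ℂ) (hv : ∑ b, ‖v b‖ ^ 2 = 1)
    (A : ℕ → (Fin n → Bool) → B → ℂ) (hA0 : ∀ x, A 0 x = v)
    (hA : ∀ t x, A (t + 1) x = (U t).mulVec (fun b =>
      (Option.elim (pos b) 1 (fun i => if x i = true then -1 else 1)) * A t x b))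
    (acc : Finset B)
    -- it computes `f` with error `1/3`
    (h1 : ∀ x, f x = some true → 2 / 3 ≤ ∑ b ∈ acc, ‖A T x b‖ ^ 2)
    (h0 : ∀ x, f x = some false → ∑ b ∈ acc, ‖A T x b‖ ^ 2 ≤ 1 / 3) :
    ∃ t : DTree (Fin n), t.depth ≤ (12 * T ^ 2 + 1) ^ 4 * (k + 2) ^ 2 ∧
      ∀ x b, f x = some b → t.eval x = b := by
  have hA' : ∀ t x, A (t + 1) x =
      (U t).mulVec (fun b => ((phase (pos b) x : ℝ) : ℂ) * A t x b) := by
    intro t x
    rw [hA]
    congr 1
    funext b
    congr 1
    unfold phase
    cases pos b with
    | none => simp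
    | some i =>
      simp only [Option.elim_some]
      split_ifs <;> simp
  have hn := norm_amp pos U hU v hv A hA0 hA'
  have hBS := BS_of_poly f (2 * T) (fun x => ∑ b ∈ acc, ‖A T x b‖ ^ 2)
    (prob_mem pos U v A hA0 hA' T acc)
    (fun x => ⟨Finset.sum_nonneg fun b _ => by positivity, by
      rw [← hn T x]
      exact Finset.sum_le_sum_of_subset_of_nonneg (Finset.subset_univ _)
        (fun b _ _ => by positivity)⟩) h1 h0
  have e : 3 * (2 * T) ^ 2 = 12 * T ^ 2 := by ring
  rw [e] at hBS
  exact tree_of_BS f k (12 * T ^ 2) hf hBS

end Pool.Agent.Results.MP_2eaaa0_lc.StructuredPromises
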